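import Pool.Agent.Helper65.JL.Stmts

open Set Filter Topology Pool.Agent.Helper86.TK

namespace Pool.Agent.Helper65.JL

theorem rcv_sum (x h : ℝ) (hh : 0 < h) (g : ℕ → ℝ)
    (hg1 : ∀ i : ℕ, ((i + 1 : ℕ) : ℝ) * h ≤ x → g i = h)
    (hg0 : ∀ i : ℕ, x < ((i + 1 : ℕ) : ℝ) * h → g i = 0) (hx : 0 ≤ x) : ∀ m : ℕ,
    0 ≤ ∑ i ∈ Finset.range m, g i ∧ ∑ i ∈ Finset.range m, g i ≤ x ∧
      ((m : ℝ) * h ≤ x → ∑ i ∈ Finset.range m, g i = m * h) ∧
      (x < m * h → x ≤ ∑ i ∈ Finset.range m, g i + h) := by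
  intro m
  induction m with
  | zero =>
    refine ⟨by simp, by simpa using hx, fun _ => by simp, fun h1 => ?_⟩
    simp at h1
    linarith
  | succ m ih =>
    obtain ⟨a0, a1, a2, a3⟩ := ih
    have hc : ((m + 1 : ℕ) : ℝ) * h = m * h + h := by push_cast; ring
    rw [Finset.sum_range_succ]
    by_cases hm : ((m + 1 : ℕ) : ℝ) * h ≤ x
    · rw [hg1 m hm, hc]
      rw [hc] at hm
      have h2 := a2 (by linarith)
      exact ⟨by linarith, by linarith, fun _ => by linarith, fun h3 => by linarith⟩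
    · push Not at hm
      rw [hg0 m hm, hc]
      rw [hc] at hm
      refine ⟨by linarith, by linarith, fun h3 => by linarith, fun _ => ?_⟩
      by_cases h4 : (m : ℝ) * h ≤ x
      · have h2 := a2 h4
        linarith
      · push Not at h4
        have := a3 h4
        linarith

theorem rcv_mem {A : Set T} {t : T} (h : t ∈ A) : chi A t = 1 := by
  unfold chi
  rw [Set.indicator_of_mem h]
  rfl

theorem rcv_not {A : Set T} {t : T} (h : t ∉ A) : chi A t = 0 := by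
  unfold chi
  rw [Set.indicator_of_notMem h]

/-- the value of the staircase -/
theorem rcv_pt (x : T → ℝ) (h : ℝ) (hh : 0 < h) (m : ℕ) (hm : 2 ≤ m * h) (t : T)
    (hx0 : 0 ≤ x t) (hx2 : x t ≤ 2) :
    0 ≤ ∑ i : Fin m, h * chi {t' | ((i + 1 : ℕ) : ℝ) * h ≤ x t'} t ∧
    ∑ i : Fin m, h * chi {t' | ((i + 1 : ℕ) : ℝ) * h ≤ x t'} t ≤ x t ∧
    x t ≤ ∑ i : Fin m, h * chi {t' | ((i + 1 : ℕ) : ℝ) * h ≤ x t'} t + h := by
  have e := (Finset.sum_range (n := m)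
    (fun i : ℕ => h * chi {t' | ((i + 1 : ℕ) : ℝ) * h ≤ x t'} t)).symm
  rw [e]
  have hg1 : ∀ i : ℕ, ((i + 1 : ℕ) : ℝ) * h ≤ x t →
      (fun i : ℕ => h * chi {t' | ((i + 1 : ℕ) : ℝ) * h ≤ x t'} t) i = h := by
    intro i hi
    have : t ∈ {t' | ((i + 1 : ℕ) : ℝ) * h ≤ x t'} := hi
    simp only [rcv_mem this, mul_one]
  have hg0 : ∀ i : ℕ, x t < ((i + 1 : ℕ) : ℝ) * h →
      (fun i : ℕ => h * chi {t' | ((i + 1 : ℕ) : ℝ) * h ≤ x t'} t) i = 0 := by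
    intro i hi
    have : t ∉ {t' | ((i + 1 : ℕ) : ℝ) * h ≤ x t'} := fun h3 => absurd h3 (not_le.2 hi)
    simp only [rcv_not this, mul_zero]
  obtain ⟨b0, b1, b2, b3⟩ := rcv_sum (x t) h hh _ hg1 hg0 hx0 m
  refine ⟨b0, b1, ?_⟩
  by_cases h4 : x t < m * h
  · exact b3 h4
  · push Not at h4
    have h5 := b2 h4
    have h6 : x t ≤ m * h := le_trans hx2 hm
    linarith

/-- the other staircase vanishes -/
theorem rcv_neg (x : T → ℝ) (h : ℝ) (hh : 0 < h) (m : ℕ) (t : T) (hx0 : x t ≤ 0) :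
    ∑ i : Fin m, h * chi {t' | ((i + 1 : ℕ) : ℝ) * h ≤ x t'} t = 0 := by
  refine Finset.sum_eq_zero fun i _ => ?_
  have h1 : t ∉ {t' | ((i + 1 : ℕ) : ℝ) * h ≤ x t'} := by
    intro h3
    have h4 : ((i + 1 : ℕ) : ℝ) * h ≤ x t := h3
    have h5 : 0 < ((i + 1 : ℕ) : ℝ) * h := by positivity
    linarith
  rw [rcv_not h1, mul_zero]

theorem st_RCV : ST_RCV := by
  intro Q c m h hh hm hc hQ
  refine ⟨fun t => ∑ i : Fin m, h * (chi {t' | ((i + 1 : ℕ) : ℝ) * h ≤ c t'} t -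
    chi {t' | ((i + 1 : ℕ) : ℝ) * h ≤ -c t'} t),
    ⟨fun i => chi {t' | ((i + 1 : ℕ) : ℝ) * h ≤ c t'},
      fun i => chi {t' | ((i + 1 : ℕ) : ℝ) * h ≤ -c t'}, fun i => (hQ (i + 1) (by omega)).1,
      fun i => (hQ (i + 1) (by omega)).2, rfl⟩, ?_⟩
  intro t
  have e : ∑ i : Fin m, h * (chi {t' | ((i + 1 : ℕ) : ℝ) * h ≤ c t'} t -
      chi {t' | ((i + 1 : ℕ) : ℝ) * h ≤ -c t'} t) =
      ∑ i : Fin m, h * chi {t' | ((i + 1 : ℕ) : ℝ) * h ≤ c t'} t -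
      ∑ i : Fin m, h * chi {t' | ((i + 1 : ℕ) : ℝ) * h ≤ -c t'} t := by
    rw [← Finset.sum_sub_distrib]
    exact Finset.sum_congr rfl fun i _ => by ring
  have hct := abs_le.1 (hc t)
  simp only [e]
  rcases le_total 0 (c t) with h0 | h0
  · obtain ⟨p0, p1, p2⟩ := rcv_pt c h hh m hm t h0 hct.2
    have q := rcv_neg (fun t' => -c t') h hh m t (by simpa using h0)
    rw [q, sub_zero]
    exact ⟨abs_le.2 ⟨by linarith, by linarith⟩, abs_le.2 ⟨by linarith, by linarith [hct.2]⟩⟩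
  · obtain ⟨p0, p1, p2⟩ := rcv_pt (fun t' => -c t') h hh m hm t (by simpa using h0)
      (by linarith [hct.1])
    have q := rcv_neg c h hh m t h0
    rw [q, zero_sub]
    exact ⟨abs_le.2 ⟨by linarith, by linarith⟩, abs_le.2 ⟨by linarith [hct.1], by linarith⟩⟩

end Pool.Agent.Helper65.JL
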